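import Pool.Agent.H.MP_8e1749_lc.Defs

namespace Pool.Agent.H.MP_8e1749_lc

open FirstOrder FirstOrder.Language Ordinal

universe u

/-- an injective pairing of ordinals, strictly monotone in both arguments -/
noncomputable def P (x y : Ordinal.{u}) : Ordinal.{u} :=
  ω ^ (max x y + 1) + (if x < y then x else max x y + y)

theorem lt_opow_succ (m : Ordinal.{u}) : m < ω ^ (m + 1) :=
  (right_le_opow m one_lt_omega0).trans_lt
    ((opow_lt_opow_iff_right one_lt_omega0).2 (lt_add_one m))

theorem P_lt (x y : Ordinal.{u}) : P x y < ω ^ (max x y + 1 + 1) := by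
  have h1 : ω ^ (max x y + 1) < ω ^ (max x y + 1 + 1) :=
    (opow_lt_opow_iff_right one_lt_omega0).2 (lt_add_one _)
  have hm : max x y < ω ^ (max x y + 1 + 1) := (lt_opow_succ _).trans h1
  refine isPrincipal_add_omega0_opow _ h1 ?_
  split_ifs
  · exact (le_max_left x y).trans_lt hm
  · exact isPrincipal_add_omega0_opow _ hm ((le_max_right x y).trans_lt hm)

theorem P_lt_of_max {x y x' y' : Ordinal.{u}} (h : max x y < max x' y') : P x y < P x' y' := by
  refine (P_lt x y).trans_le (le_trans ?_ le_self_add)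
  refine (opow_le_opow_iff_right one_lt_omega0).2 ?_
  have : max x y + 1 ≤ max x' y' := Order.add_one_le_of_lt h
  gcongr

theorem P_left {x x' : Ordinal.{u}} (y : Ordinal.{u}) (h : x < x') : P x y < P x' y := by
  rcases (max_le_max_right y h.le).lt_or_eq with h1 | h1
  · exact P_lt_of_max h1
  · have hy : x' ≤ y := by
      by_contra hc
      push Not at hc
      rw [max_eq_left hc.le] at h1
      exact absurd h1 (max_lt h hc).ne
    have hxy : x < y := h.trans_le hy
    unfold P
    rw [h1, if_pos hxy]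
    refine (add_lt_add_iff_left _).2 ?_
    split_ifs
    · exact h
    · exact h.trans_le ((le_max_left _ _).trans le_self_add)

theorem P_right (x : Ordinal.{u}) {y y' : Ordinal.{u}} (h : y < y') : P x y < P x y' := by
  rcases (max_le_max_left x h.le).lt_or_eq with h1 | h1
  · exact P_lt_of_max h1
  · have hy : y' ≤ x := by
      by_contra hc
      push Not at hc
      rw [max_eq_right hc.le] at h1
      exact absurd h1 (max_lt hc h).ne
    unfold P
    rw [h1, if_neg (not_lt.2 (h.le.trans hy)), if_neg (not_lt.2 hy)]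
    exact (add_lt_add_iff_left _).2 ((add_lt_add_iff_left _).2 h)

theorem P_inj {x y x' y' : Ordinal.{u}} (h : P x y = P x' y') : x = x' ∧ y = y' := by
  have hm : max x y = max x' y' := by
    rcases lt_trichotomy (max x y) (max x' y') with h1 | h1 | h1
    · exact absurd h (P_lt_of_max h1).ne
    · exact h1
    · exact absurd h (P_lt_of_max h1).ne'
  unfold P at h
  rw [hm] at h
  have h2 := add_left_cancel h
  by_cases a : x < y <;> by_cases b : x' < y'
  · rw [if_pos a, if_pos b] at h2
    rw [max_eq_right a.le, max_eq_right b.le] at hm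
    exact ⟨h2, hm⟩
  · rw [if_pos a, if_neg b, ← hm, max_eq_right a.le] at h2
    exact absurd h2 (a.trans_le le_self_add).ne
  · rw [if_neg a, if_pos b, max_eq_right b.le] at h2
    exact absurd h2 (b.trans_le le_self_add).ne'
  · rw [if_neg a, if_neg b] at h2
    rw [max_eq_left (not_lt.1 a), max_eq_left (not_lt.1 b)] at hm
    exact ⟨hm, add_left_cancel h2⟩

theorem le_P (x y : Ordinal.{u}) : y ≤ P x y :=
  ((le_max_right x y).trans (lt_opow_succ _).le).trans le_self_add

theorem P_eps {x y o : Ordinal.{u}} (hx : x < epsilon o) (hy : y < epsilon o) : P x y < epsilon o := by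
  refine (P_lt x y).trans ?_
  have hp : IsPrincipal (· + ·) (epsilon o) := by
    rw [← omega0_opow_epsilon]; exact isPrincipal_add_omega0_opow _
  have h1 : (1 : Ordinal.{u}) < epsilon o := one_lt_omega0.trans (omega0_lt_epsilon o)
  rw [← omega0_opow_epsilon]
  exact (opow_lt_opow_iff_right one_lt_omega0).2 (hp (hp (max_lt hx hy) h1) h1)

noncomputable def fold : (n : ℕ) → (Fin n → Ordinal.{u}) → Ordinal.{u} → Ordinal.{u}
  | 0, _, s => s
  | n + 1, v, s => P (v 0) (fold n (fun i => v i.succ) s)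

theorem fold_lt : ∀ (n : ℕ) (v v' : Fin n → Ordinal.{u}) (s : Ordinal.{u}) (i : Fin n),
    (∀ j, j ≠ i → v j = v' j) → v i < v' i → fold n v s < fold n v' s
  | 0, _, _, _, i, _, _ => i.elim0
  | n + 1, v, v', s, i, h, h' => by
    simp only [fold]
    induction i using Fin.cases with
    | zero =>
      have : (fun i : Fin n => v i.succ) = fun i => v' i.succ :=
        funext fun j => h _ (Fin.succ_ne_zero j)
      rw [this]
      exact P_left _ h'
    | succ i =>
      rw [h 0 (Fin.succ_ne_zero i).symm]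
      exact P_right _ (fold_lt n _ _ s i (fun j hj => h _ (fun e => hj (Fin.succ_injective _ e))) h')

theorem fold_inj : ∀ (n : ℕ) (v v' : Fin n → Ordinal.{u}) (s : Ordinal.{u}),
    fold n v s = fold n v' s → v = v'
  | 0, _, _, _, _ => funext fun i => i.elim0
  | n + 1, v, v', s, h => by
    obtain ⟨h1, h2⟩ := P_inj h
    have := fold_inj n _ _ s h2
    funext i
    induction i using Fin.cases with
    | zero => exact h1
    | succ i => exact congrFun this i

theorem le_fold : ∀ (n : ℕ) (v : Fin n → Ordinal.{u}) (s : Ordinal.{u}), s ≤ fold n v s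
  | 0, _, _ => le_rfl
  | n + 1, _, s => (le_fold n _ s).trans (le_P _ _)

theorem fold_eps {o : Ordinal.{u}} : ∀ (n : ℕ) (v : Fin n → Ordinal.{u}) (s : Ordinal.{u}),
    (∀ i, v i < epsilon o) → s < epsilon o → fold n v s < epsilon o
  | 0, _, _, _, h => h
  | n + 1, _, s, h, h' => P_eps (h 0) (fold_eps n _ s (fun i => h i.succ) h')

variable {L : FirstOrder.Language.{0, 0}}

noncomputable def enc {α : Type} (a : α) : Ordinal.{0} := typein (@WellOrderingRel α) a

theorem enc_inj {α : Type} {a b : α} (h : enc a = enc b) : a = b := typein_injective _ h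

noncomputable def code {V : Type} : L.Term V → Ordinal.{0}
  | .var v => P (enc (Sum.inr v : (Σ n, L.Functions n) ⊕ V)) 0
  | .func (l := n) f ts =>
      P (enc (Sum.inl ⟨n, f⟩ : (Σ n, L.Functions n) ⊕ V)) (fold n (fun i => code (ts i)) 0)

theorem code_inj {V : Type} : ∀ s t : L.Term V, code s = code t → s = t := by
  intro s
  induction s with
  | var v =>
    intro t h
    cases t with
    | var w =>
      have := enc_inj (P_inj h).1
      cases this
      rfl
    | func g ts => cases enc_inj (P_inj h).1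
  | func f ss ih =>
    intro t h
    cases t with
    | var w => cases enc_inj (P_inj h).1
    | func g ts =>
      have := enc_inj (P_inj h).1
      cases this
      have h2 := fold_inj _ _ _ _ (P_inj h).2
      congr 1
      funext i
      exact ih i _ (congrFun h2 i)

/-- evaluation of terms -/
def ev {X : Type u} (I : ∀ n, L.Functions n → (Fin n → X) → X) {V : Type} (ρ : V → X) :
    L.Term V → X
  | .var v => ρ v
  | .func f ts => I _ f (fun i => ev I ρ (ts i))

theorem ev_subst {X : Type u} (I : ∀ n, L.Functions n → (Fin n → X) → X) {V W : Type} (ρ : W → X)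
    (σ : V → L.Term W) (t : L.Term V) : ev I ρ (t.subst σ) = ev I (fun v => ev I ρ (σ v)) t := by
  induction t with
  | var v => rfl
  | func f ts ih =>
    simp only [Term.subst, ev]
    congr 1
    funext i
    exact ih i

def Mono {X : Type u} [LinearOrder X] (I : ∀ n, L.Functions n → (Fin n → X) → X) : Prop :=
  ∀ (n : ℕ) (f : L.Functions n) (ts ts' : Fin n → X) (i : Fin n),
    (∀ j, j ≠ i → ts j = ts' j) → ts i < ts' i → I n f ts < I n f ts'

theorem tot_of_model {X : Type u} [LinearOrder X] [WellFoundedLT X] (x0 : X)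
    (I : ∀ n, L.Functions n → (Fin n → X) → X) (hI : Mono I) (R : Set (L.Term ℕ × L.Term ℕ))
    (hR : ∀ p ∈ R, ∀ ρ : ℕ → X, ev I ρ p.2 < ev I ρ p.1) : TotTerm R := by
  let e : Gr L → X ×ₗ Ordinal.{0} := fun t => toLex (ev I (fun _ => x0) t, code t)
  have he : Function.Injective e := fun s t h => code_inj s t (congrArg (fun z => (ofLex z).2) h)
  let r : Gr L → Gr L → Prop := fun s t => e s < e t
  let E : r ↪r ((· < ·) : X ×ₗ Ordinal.{0} → X ×ₗ Ordinal.{0} → Prop) := ⟨⟨e, he⟩, Iff.rfl⟩
  refine ⟨r, E.isWellOrder, ?_, ?_⟩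
  · intro n f ts ts' i h h'
    simp only [r, e, Prod.Lex.toLex_lt_toLex] at h' ⊢
    rcases h' with h' | ⟨h1, h2⟩
    · exact Or.inl (hI n f _ _ i (fun j hj => by rw [h j hj]) h')
    · refine Or.inr ⟨?_, ?_⟩
      · simp only [ev]
        congr 1
        funext j
        by_cases e : j = i
        · rw [e]; exact h1
        · rw [h j e]
      · exact P_right _ (fold_lt n _ _ 0 i (fun j hj => by rw [h j hj]) h2)
  · intro p hp σ
    simp only [r, e, Prod.Lex.toLex_lt_toLex]
    refine Or.inl ?_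
    rw [ev_subst, ev_subst]
    exact hR p hp _

theorem infl {X : Type u} [LinearOrder X] [WellFoundedLT X]
    {I : ∀ n, L.Functions n → (Fin n → X) → X} (hI : Mono I) {n : ℕ} (f : L.Functions n)
    (ts : Fin n → X) (i : Fin n) : ts i ≤ I n f ts := by
  have : StrictMono (fun t => I n f (Function.update ts i t)) := by
    intro a b h
    refine hI n f _ _ i (fun j hj => ?_) ?_
    · rw [Function.update_of_ne hj, Function.update_of_ne hj]
    · simpa using h
  have h := this.le_apply (x := ts i)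
  simpa using h

/-- the common carrier -/
def Lam (μ : Ordinal.{0}) : Type 1 := {x : Ordinal.{0} // ∃ k : ℕ, x < epsilon (μ * k)}

noncomputable instance (μ : Ordinal.{0}) : LinearOrder (Lam μ) :=
  inferInstanceAs (LinearOrder {x : Ordinal.{0} // ∃ k : ℕ, x < epsilon (μ * k)})

instance (μ : Ordinal.{0}) : WellFoundedLT (Lam μ) :=
  inferInstanceAs (WellFoundedLT {x : Ordinal.{0} // ∃ k : ℕ, x < epsilon (μ * k)})

theorem eps_le {a b : Ordinal.{0}} (h : a ≤ b) : epsilon a ≤ epsilon b := (veblen_le_veblen_iff_right).2 h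
theorem eps_lt {a b : Ordinal.{0}} (h : a < b) : epsilon a < epsilon b := (veblen_lt_veblen_iff_right).2 h

theorem fold_lam {μ : Ordinal.{0}} {n : ℕ} (v : Fin n → Lam μ) (s : Ordinal.{0})
    (hs : ∃ k : ℕ, s < epsilon (μ * k)) : ∃ k : ℕ, fold n (fun i => (v i).1) s < epsilon (μ * k) := by
  obtain ⟨k, hk⟩ := hs
  choose c hc using fun i => (v i).2
  have mono : ∀ a b : ℕ, a ≤ b → epsilon (μ * a) ≤ epsilon (μ * b) := fun a b h =>
    eps_le (by gcongr)
  refine ⟨k + Finset.univ.sup c, fold_eps n _ s (fun i => (hc i).trans_le (mono _ _ ?_))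
    (hk.trans_le (mono _ _ (Nat.le_add_right _ _)))⟩
  exact (Finset.le_sup (f := c) (Finset.mem_univ i)).trans (Nat.le_add_left _ _)

theorem lift_model {A : Type} [LinearOrder A] [WellFoundedLT A] [Countable A] [Nonempty A]
    (op : ∀ n, L.Functions n → (Fin n → A) → A) (hop : Mono op) (μ : Ordinal.{0})
    (τ : A → Ordinal.{0}) (hτ : StrictMono τ) (hμ : ∀ a, τ a < μ) :
    ∃ (I : ∀ n, L.Functions n → (Fin n → Lam μ) → Lam μ) (π : Lam μ → A), Mono I ∧
      (∀ n f ts, π (I n f ts) = op n f (fun i => π (ts i))) ∧ ∀ x y, π x < π y → x < y := by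
  classical
  obtain ⟨e, he⟩ := exists_surjective_nat A
  have ex : ∀ a, ∃ k, a ≤ e k := fun a => by
    obtain ⟨k, hk⟩ := he a
    exact ⟨k, hk.ge⟩
  let N : A → ℕ := fun a => Nat.find (ex a)
  have Nmono : ∀ a b, a ≤ b → N a ≤ N b := fun a b h =>
    Nat.find_min' (ex a) (h.trans (Nat.find_spec (ex b)))
  let ι : A → Ordinal.{0} := fun a => μ * N a + τ a
  have ιlt : ∀ a, ι a < μ * ((N a + 1 : ℕ) : Ordinal) := fun a => by
    rw [Nat.cast_succ, mul_add_one]
    exact (add_lt_add_iff_left _).2 (hμ a)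
  have ιmono : ∀ a b, a < b → ι a < ι b := fun a b h => by
    rcases (Nmono a b h.le).lt_or_eq with h1 | h1
    · refine (ιlt a).trans_le (le_trans ?_ le_self_add)
      have : N a + 1 ≤ N b := h1
      gcongr
    · simp only [ι, h1]
      exact (add_lt_add_iff_left _).2 (hτ h)
  let Cov : A → Ordinal.{0} → Prop := fun a x => x < epsilon (ι a + 1) ∨ IsMax a
  have cover : ∀ x : Lam μ, ∃ a, Cov a x.1 := by
    intro x
    by_cases hm : ∃ a : A, IsMax a
    · obtain ⟨a, ha⟩ := hm
      exact ⟨a, Or.inr ha⟩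
    · obtain ⟨k, hk⟩ := x.2
      obtain ⟨b, hb⟩ := (Finset.range (k + 1)).exists_max_image e (by simp)
      obtain ⟨a, ha⟩ := not_isMax_iff.1 (fun h => hm ⟨e b, h⟩)
      have : k ≤ N a := by
        by_contra hc
        push Not at hc
        exact absurd ((Nat.find_spec (ex a)).trans (hb.2 (N a) (by simp; omega))) (not_le.2 ha)
      refine ⟨a, Or.inl (hk.trans_le (eps_le ?_))⟩
      refine le_trans ?_ (le_self_add.trans le_self_add : μ * N a ≤ μ * N a + τ a + 1)
      gcongr
  let π : Lam μ → A := fun x => wellFounded_lt.min {a | Cov a x.1} (cover x)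
  have πcov : ∀ x, Cov (π x) x.1 := fun x => wellFounded_lt.min_mem {a | Cov a x.1} (cover x)
  have πmin : ∀ x a, Cov a x.1 → π x ≤ a := fun x a h =>
    wellFounded_lt.min_le (s := {a | Cov a x.1}) h
  have πmono : ∀ x y : Lam μ, x ≤ y → π x ≤ π y := fun x y h => by
    refine πmin x _ ?_
    rcases πcov y with h1 | h1
    · exact Or.inl (lt_of_le_of_lt h h1)
    · exact Or.inr h1
  let I : ∀ n, L.Functions n → (Fin n → Lam μ) → Lam μ := fun n f ts =>
    ⟨fold n (fun i => (ts i).1) (epsilon (ι (op n f (fun i => π (ts i))))),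
      fold_lam ts _ ⟨_, eps_lt (ιlt _)⟩⟩
  have key : ∀ n f ts, π (I n f ts) = op n f (fun i => π (ts i)) := by
    intro n f ts
    set a := op n f (fun i => π (ts i)) with ha
    apply le_antisymm
    · refine πmin _ _ ?_
      by_cases hm : IsMax a
      · exact Or.inr hm
      · refine Or.inl (fold_eps n _ _ (fun i => ?_) (eps_lt (lt_add_one _)))
        have h1 : π (ts i) ≤ a := infl hop f (fun i => π (ts i)) i
        rcases πcov (ts i) with h2 | h2
        · refine h2.trans_le (eps_le ?_)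
          rcases h1.lt_or_eq with h3 | h3
          · have := (ιmono _ _ h3).le
            gcongr
          · rw [h3]
        · exact absurd (h2.mono h1) hm
    · by_contra hc
      push Not at hc
      rcases πcov (I n f ts) with h2 | h2
      · have h3 : epsilon (ι (π (I n f ts)) + 1) ≤ epsilon (ι a) :=
          eps_le (Order.add_one_le_of_lt (ιmono _ _ hc))
        exact absurd (h2.trans_le h3) (not_lt.2 (le_fold n _ _))
      · exact h2.not_lt hc
  have back : ∀ x y, π x < π y → x < y := fun x y h => by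
    by_contra hc
    push Not at hc
    exact absurd (πmono _ _ hc) (not_le.2 h)
  refine ⟨I, π, ?_, key, back⟩
  intro n f ts ts' i h h'
  rcases (πmono _ _ h'.le).lt_or_eq with h1 | h1
  · refine back _ _ ?_
    rw [key, key]
    exact hop n f _ _ i (fun j hj => by rw [h j hj]) h1
  · have : (fun j => π (ts j)) = fun j => π (ts' j) := by
      funext j
      by_cases e : j = i
      · rw [e]; exact h1
      · rw [h j e]
    change fold n _ _ < fold n _ _
    rw [this]
    exact fold_lt n _ _ _ i (fun j hj => by rw [h j hj]) h'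

instance : Nonempty (Gr L) := by
  by_cases h : IsEmpty (L.Functions 0)
  · exact ⟨Term.var ⟨(), h⟩⟩
  · rw [not_isEmpty_iff] at h
    obtain ⟨c⟩ := h
    exact ⟨Term.func c Fin.elim0⟩

theorem model_of_tot [Countable (Σ n, L.Functions n)] (R : Set (L.Term ℕ × L.Term ℕ))
    (h : TotTerm R) : ∃ ν : Ordinal.{0}, ∀ μ, ν ≤ μ →
      ∃ I : ∀ n, L.Functions n → (Fin n → Lam μ) → Lam μ, Mono I ∧
        ∀ p ∈ R, ∀ ρ : ℕ → Lam μ, ev I ρ p.2 < ev I ρ p.1 := by
  classical
  obtain ⟨lt, hw, hm, hr⟩ := h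
  refine ⟨type lt, fun μ hμ => ?_⟩
  letI : LinearOrder (Gr L) := linearOrderOfSTO lt
  haveI : WellFoundedLT (Gr L) := ⟨hw.wf⟩
  obtain ⟨I, π, h1, h2, h3⟩ := lift_model (L := L) (A := Gr L) (fun n f ts => Term.func f ts) hm μ
    (typein lt) (fun a b h => (typein_lt_typein lt).2 h) (fun a => (typein_lt_type lt a).trans_le hμ)
  refine ⟨I, h1, fun p hp ρ => h3 _ _ ?_⟩
  have : ∀ t : L.Term ℕ, π (ev I ρ t) = t.subst (fun v => π (ρ v)) := by
    intro t
    induction t with
    | var v => rfl
    | func f ts ih =>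
      simp only [ev, Term.subst, h2]
      congr 1
      funext i
      exact ih i
  rw [this, this]
  exact hr p hp _

theorem modular {L₁ L₂ : FirstOrder.Language.{0, 0}} [Countable (Σ n, L₁.Functions n)]
    [Countable (Σ n, L₂.Functions n)] (R₁ : Set (L₁.Term ℕ × L₁.Term ℕ))
    (R₂ : Set (L₂.Term ℕ × L₂.Term ℕ)) (h₁ : TotTerm R₁) (h₂ : TotTerm R₂) :
    TotTerm (union R₁ R₂) := by
  obtain ⟨ν₁, h₁⟩ := model_of_tot R₁ h₁
  obtain ⟨ν₂, h₂⟩ := model_of_tot R₂ h₂
  obtain ⟨I₁, m₁, r₁⟩ := h₁ (max ν₁ ν₂) (le_max_left _ _)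
  obtain ⟨I₂, m₂, r₂⟩ := h₂ (max ν₁ ν₂) (le_max_right _ _)
  let I : ∀ n, (L₁.sum L₂).Functions n → (Fin n → Lam (max ν₁ ν₂)) → Lam (max ν₁ ν₂) :=
    fun n f => Sum.elim (I₁ n) (I₂ n) f
  have e₁ : ∀ (ρ : ℕ → Lam (max ν₁ ν₂)) (t : L₁.Term ℕ),
      ev I ρ ((LHom.sumInl : L₁ →ᴸ L₁.sum L₂).onTerm t) = ev I₁ ρ t := by
    intro ρ t
    induction t with
    | var v => rfl
    | func f ts ih =>
      simp only [LHom.onTerm, ev]
      change I₁ _ f _ = I₁ _ f _
      congr 1
      funext i
      exact ih i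
  have e₂ : ∀ (ρ : ℕ → Lam (max ν₁ ν₂)) (t : L₂.Term ℕ),
      ev I ρ ((LHom.sumInr : L₂ →ᴸ L₁.sum L₂).onTerm t) = ev I₂ ρ t := by
    intro ρ t
    induction t with
    | var v => rfl
    | func f ts ih =>
      simp only [LHom.onTerm, ev]
      change I₂ _ f _ = I₂ _ f _
      congr 1
      funext i
      exact ih i
  refine tot_of_model (⟨0, 0, epsilon_pos _⟩ : Lam (max ν₁ ν₂)) I ?_ _ ?_
  · intro n f ts ts' i h h'
    rcases f with f | f
    · exact m₁ n f ts ts' i h h'
    · exact m₂ n f ts ts' i h h'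
  · rintro p (⟨q, hq, rfl⟩ | ⟨q, hq, rfl⟩) ρ
    · exact lt_of_eq_of_lt (e₁ ρ q.2) (lt_of_lt_of_eq (r₁ q hq ρ) (e₁ ρ q.1).symm)
    · exact lt_of_eq_of_lt (e₂ ρ q.2) (lt_of_lt_of_eq (r₂ q hq ρ) (e₂ ρ q.1).symm)

end Pool.Agent.H.MP_8e1749_lc
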