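import Pool.Agent.H.MP_8e1749_lc.A

namespace Pool.Agent.H.MP_8e1749_lc

open FirstOrder FirstOrder.Language Ordinal Cardinal

universe u

abbrev X : Type := (ℵ_ 1 : Cardinal.{0}).ord.ToType
abbrev Y : Type := X ×ₗ ℕ

theorem X_unc : ¬ Countable X := by
  intro h
  have : #X ≤ ℵ₀ := mk_le_aleph0
  rw [mk_ord_toType] at this
  exact absurd this (not_le.2 aleph0_lt_aleph_one)

theorem Iic_count (ζ : X) : (Set.Iic ζ).Countable := by
  have h : (Set.Iio ζ).Countable := by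
    rw [← Cardinal.le_aleph0_iff_set_countable]
    have := mk_Iio_toType_ord_lt ζ
    exact Order.lt_succ_iff.1 (lt_of_lt_of_eq this succ_aleph0.symm)
  rw [← Set.Iio_insert]
  exact h.insert ζ

theorem exists_rho {Z : Type} {W : Type u} [LinearOrder W] [WellFoundedLT W] (κ : Z → W)
    (hc : ∀ z, {z' | κ z' < κ z}.Countable) : ∃ ρ : Z → Y, ∀ z z', κ z' < κ z → ρ z' < ρ z := by
  let r : Z → Z → Prop := fun z' z => κ z' < κ z
  have wf : IsWellFounded Z r := ⟨InvImage.wf κ wellFounded_lt⟩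
  have hr : ∀ z, IsWellFounded.rank r z < (ℵ_ 1 : Cardinal.{0}).ord := by
    intro z
    rw [ord_aleph]
    induction z using wf.wf.induction with
    | _ z ih =>
      rw [IsWellFounded.rank_eq]
      have : Countable {b // r b z} := (hc z).to_subtype
      exact Ordinal.iSup_lt_omega_one fun b => (isSuccLimit_omega 1).succ_lt (ih b.1 b.2)
  refine ⟨fun z => toLex (ToType.mk ⟨_, hr z⟩, 0), fun z z' h => ?_⟩
  refine Prod.Lex.toLex_lt_toLex.2 (Or.inl ?_)
  exact ToType.mk.strictMono (IsWellFounded.rank_lt_of_rel (r := r) h)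

noncomputable def M (u : Fin 3 → Y) : X := max (max (ofLex (u 0)).1 (ofLex (u 1)).1) (ofLex (u 2)).1

theorem fst_le {a b : Y} (h : a ≤ b) : (ofLex a).1 ≤ (ofLex b).1 := by
  rcases Prod.Lex.le_iff.1 h with h | h
  · exact h.le
  · exact h.1.le

theorem exists_op (w : ℕ → X → ℕ) (j : X → Fin 3) : ∃ ρ : ℕ → (Fin 3 → Y) → Y,
    (∀ n (ts ts' : Fin 3 → Y) (i : Fin 3), (∀ j, j ≠ i → ts j = ts' j) → ts i < ts' i →
      ρ n ts < ρ n ts') ∧
    (∀ n n' u u', M u' < M u → ρ n' u' < ρ n u) ∧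
    (∀ n n' u u', M u' = M u → w n' (M u) < w n (M u) → ρ n' u' < ρ n u) ∧
    (∀ n n' u u', M u' = M u → w n' (M u) = w n (M u) → u' (j (M u)) < u (j (M u)) →
      ρ n' u' < ρ n u) := by
  let τ : Y → Ordinal.{0} := IsWellFounded.rank (· < ·)
  have hτ : StrictMono τ := WellFoundedLT.rank_strictMono
  let κ : ℕ × (Fin 3 → Y) → X ×ₗ (ℕ ×ₗ (Y ×ₗ Ordinal.{0})) := fun z =>
    toLex (M z.2, toLex (w z.1 (M z.2), toLex (z.2 (j (M z.2)), fold 3 (fun i => τ (z.2 i)) 0)))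
  obtain ⟨ρ, hρ⟩ := exists_rho κ (by
    intro z
    have h1 : {y : Y | (ofLex y).1 ≤ M z.2}.Countable := by
      have := ((Iic_count (M z.2)).prod (Set.countable_univ (α := ℕ))).image (toLex : X × ℕ → Y)
      refine this.mono ?_
      intro y hy
      exact ⟨ofLex y, ⟨hy, trivial⟩, rfl⟩
    have h2 := (Set.countable_univ (α := ℕ)).prod
      (Set.countable_pi (α := Fin 3) (s := fun _ => {y : Y | (ofLex y).1 ≤ M z.2}) fun _ => h1)
    refine h2.mono ?_
    intro z' hz'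
    refine ⟨trivial, fun i => ?_⟩
    have h3 : M z'.2 ≤ M z.2 := by
      rcases Prod.Lex.toLex_lt_toLex.1 hz' with h | h
      · exact h.le
      · exact h.1.le
    refine le_trans ?_ h3
    fin_cases i
    · exact (le_max_left _ _).trans (le_max_left _ _)
    · exact (le_max_right _ _).trans (le_max_left _ _)
    · exact le_max_right _ _)
  refine ⟨fun n u => ρ (n, u), ?_, ?_, ?_, ?_⟩
  · intro n ts ts' i h h'
    apply hρ
    have hle : ∀ k, ts k ≤ ts' k := fun k => by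
      by_cases e : k = i
      · rw [e]; exact h'.le
      · rw [h k e]
    have hM : M ts ≤ M ts' :=
      max_le_max (max_le_max (fst_le (hle 0)) (fst_le (hle 1))) (fst_le (hle 2))
    simp only [κ, Prod.Lex.toLex_lt_toLex]
    rcases hM.lt_or_eq with h1 | h1
    · exact Or.inl h1
    · rw [h1]
      refine Or.inr ⟨rfl, Or.inr ⟨rfl, ?_⟩⟩
      rcases (hle (j (M ts'))).lt_or_eq with h2 | h2
      · exact Or.inl h2
      · exact Or.inr ⟨h2, fold_lt 3 _ _ 0 i (fun k hk => by rw [h k hk]) (hτ h')⟩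
  · intro n n' u u' h
    apply hρ
    simp only [κ, Prod.Lex.toLex_lt_toLex]
    exact Or.inl h
  · intro n n' u u' h h'
    apply hρ
    simp only [κ, Prod.Lex.toLex_lt_toLex, h]
    exact Or.inr ⟨trivial, Or.inl h'⟩
  · intro n n' u u' h h' h''
    apply hρ
    simp only [κ, Prod.Lex.toLex_lt_toLex, h]
    exact Or.inr ⟨trivial, Or.inr ⟨h', Or.inl h''⟩⟩

inductive F1 : ℕ → Type
  | b : X → F1 0
  | s : F1 1
  | g : X → F1 1
  | c : X → ℕ → F1 3
  | d : X → X → F1 3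

inductive F2 : ℕ → Type
  | a : ℕ → F2 0
  | h : ℕ → F2 2

def L1 : FirstOrder.Language.{0, 0} := ⟨F1, fun _ => Empty⟩
def L2 : FirstOrder.Language.{0, 0} := ⟨F2, fun _ => Empty⟩

def x1 : L1.Term ℕ := Term.var 0
def tb (ξ : X) : L1.Term ℕ := Term.func (L := L1) (F1.b ξ) ![]
def t1 (f : F1 1) (t : L1.Term ℕ) : L1.Term ℕ := Term.func (L := L1) f ![t]
def t3 (f : F1 3) (a b c : L1.Term ℕ) : L1.Term ℕ := Term.func (L := L1) f ![a, b, c]
def sn : ℕ → L1.Term ℕ
  | 0 => x1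
  | n + 1 => t1 .s (sn n)

def R1 : Set (L1.Term ℕ × L1.Term ℕ) :=
  {p | (∃ ξ n, p = (t3 (.c ξ n) (tb ξ) (sn n) x1, t3 (.c ξ (n + 1)) x1 (t1 (.g ξ) x1) x1)) ∨
    ∃ ξ η, ξ ≠ η ∧ p = (t3 (.d ξ η) (tb (max ξ η)) (t1 (.g ξ) x1) (t1 (.g η) x1),
      t3 (.d ξ η) x1 (t1 (.g η) x1) (t1 .s (t1 (.g ξ) x1)))}

def x2 : L2.Term ℕ := Term.var 0
def ta (i : ℕ) : L2.Term ℕ := Term.func (L := L2) (F2.a i) ![]
def t2 (i : ℕ) (a b : L2.Term ℕ) : L2.Term ℕ := Term.func (L := L2) (F2.h i) ![a, b]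

def R2 : Set (L2.Term ℕ × L2.Term ℕ) := {p | ∃ i, p = (t2 i (ta i) x2, t2 (i + 1) x2 x2)}

theorem trs1 : IsTRS R1 := by
  rintro p (⟨ξ, n, rfl⟩ | ⟨ξ, η, _, rfl⟩)
  · refine ⟨fun x h => (by cases h), fun v hv => ?_⟩
    simp [t3, t1, x1, Term.varFinset, Fin.exists_fin_succ] at hv ⊢
    exact Or.inr (Or.inr hv)
  · refine ⟨fun x h => (by cases h), fun v hv => ?_⟩
    simp [t3, t1, x1, Term.varFinset, Fin.exists_fin_succ] at hv ⊢
    exact Or.inr hv

theorem trs2 : IsTRS R2 := by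
  rintro p ⟨i, rfl⟩
  refine ⟨fun x h => (by cases h), fun v hv => ?_⟩
  simp [t2, x2, Term.varFinset, Fin.exists_fin_succ] at hv ⊢
  exact Or.inr hv

section ev
variable {T : Type u} (I : ∀ n, L1.Functions n → (Fin n → T) → T) (ρ : ℕ → T)
  (J : ∀ n, L2.Functions n → (Fin n → T) → T)

theorem ev_x1 : ev I ρ x1 = ρ 0 := rfl
theorem ev_tb (ξ : X) : ev I ρ (tb ξ) = I 0 (F1.b ξ) ![] := by
  simp only [tb, ev]; congr 1; funext i; exact i.elim0
theorem ev_t1 (f : F1 1) (t : L1.Term ℕ) : ev I ρ (t1 f t) = I 1 f ![ev I ρ t] := by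
  simp only [t1, ev]; congr 1; funext i; fin_cases i; rfl
theorem ev_t3 (f : F1 3) (a b c : L1.Term ℕ) :
    ev I ρ (t3 f a b c) = I 3 f ![ev I ρ a, ev I ρ b, ev I ρ c] := by
  simp only [t3, ev]; congr 1; funext i; fin_cases i <;> rfl
theorem ev_x2 : ev J ρ x2 = ρ 0 := rfl
theorem ev_ta (i : ℕ) : ev J ρ (ta i) = J 0 (F2.a i) ![] := by
  simp only [ta, ev]; congr 1; funext i; exact i.elim0
theorem ev_t2 (i : ℕ) (a b : L2.Term ℕ) :
    ev J ρ (t2 i a b) = J 2 (F2.h i) ![ev J ρ a, ev J ρ b] := by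
  simp only [t2, ev]; congr 1; funext i; fin_cases i <;> rfl
end ev

def hN (i u x : ℕ) : ℕ := u + x + if i ≤ u then (x - i + 1) * (x + 1) else 0

def I2 : ∀ n, F2 n → (Fin n → ℕ) → ℕ
  | _, .a i, _ => i
  | _, .h i, v => hN i (v 0) (v 1)

theorem tot2 : TotTerm R2 := by
  refine tot_of_model (L := L2) 0 I2 ?_ R2 ?_
  · intro n f ts ts' i h h'
    cases f with
    | a => exact i.elim0
    | h k =>
      simp only [I2, hN]
      fin_cases i
      · have e : ts 1 = ts' 1 := h 1 (by decide)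
        have h' : ts 0 < ts' 0 := h'
        rw [e]
        split_ifs <;> omega
      · have e : ts 0 = ts' 0 := h 0 (by decide)
        have h' : ts 1 < ts' 1 := h'
        rw [e]
        have : (ts 1 - k + 1) * (ts 1 + 1) ≤ (ts' 1 - k + 1) * (ts' 1 + 1) :=
          Nat.mul_le_mul (by omega) (by omega)
        split_ifs <;> omega
  · rintro p ⟨i, rfl⟩ ρ
    change hN (i + 1) (ρ 0) (ρ 0) < hN i i (ρ 0)
    generalize ρ 0 = x
    simp only [hN, le_refl, if_true]
    split_ifs with h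
    · have : x - i + 1 = (x - (i + 1) + 1) + 1 := by omega
      rw [this, Nat.add_mul (x - (i + 1) + 1) 1]
      omega
    · have : x + 1 ≤ (x - i + 1) * (x + 1) := Nat.le_mul_of_pos_left _ (by omega)
      omega

theorem tot1 : TotTerm R1 := by
  classical
  choose e he using fun ζ : X => Set.countable_iff_exists_injOn.1 (Iic_count ζ)
  choose ρc c1 c2 c3 c4 using fun ξ : X => exists_op (fun n ζ => 2 * e ζ ξ + 1 - n) (fun _ => 1)
  choose ρd d1 d2 _ d4 using fun ξ η : X =>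
    exists_op (fun _ _ => 0) (fun ζ => if e ζ η < e ζ ξ then 1 else 2)
  let add : Y → (X → ℕ) → Y := fun y m => toLex ((ofLex y).1, (ofLex y).2 + m (ofLex y).1)
  have addm : ∀ m y y', y < y' → add y m < add y' m := by
    intro m y y' h
    simp only [add, Prod.Lex.toLex_lt_toLex]
    rcases Prod.Lex.lt_iff.1 h with h | h
    · exact Or.inl h
    · refine Or.inr ⟨h.1, ?_⟩
      rw [h.1]
      exact Nat.add_lt_add_right h.2 _
  let I0 : ∀ n, F1 n → (Fin n → Y) → Y := fun n f v =>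
    match n, f, v with
    | _, .b ξ, _ => toLex (ξ, 0)
    | _, .s, v => add (v 0) (fun _ => 1)
    | _, .g ξ, v => add (v 0) (fun ζ => if ξ ≤ ζ then 2 * e ζ ξ else 0)
    | _, .c ξ n, v => ρc ξ n v
    | _, .d ξ η, v => ρd ξ η 0 v
  obtain ⟨I, Ib, Is, Ig, Ic, Id⟩ : ∃ I : ∀ n, L1.Functions n → (Fin n → Y) → Y,
      (∀ ξ v, I 0 (F1.b ξ) v = toLex (ξ, 0)) ∧ (∀ v, I 1 F1.s v = add (v 0) (fun _ => 1)) ∧
      (∀ ξ v, I 1 (F1.g ξ) v = add (v 0) (fun ζ => if ξ ≤ ζ then 2 * e ζ ξ else 0)) ∧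
      (∀ ξ n v, I 3 (F1.c ξ n) v = ρc ξ n v) ∧ (∀ ξ η v, I 3 (F1.d ξ η) v = ρd ξ η 0 v) :=
    ⟨I0, fun _ _ => rfl, fun _ => rfl, fun _ _ => rfl, fun _ _ _ => rfl, fun _ _ _ => rfl⟩
  have x0 : X := by
    have : Nonempty X := by
      by_contra h
      rw [not_nonempty_iff] at h
      exact X_unc inferInstance
    exact Classical.arbitrary X
  refine tot_of_model (L := L1) (toLex (x0, 0) : Y) I ?_ R1 ?_
  · intro n f ts ts' i h h'
    cases f with
    | b => exact i.elim0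
    | s =>
      obtain rfl : i = 0 := Subsingleton.elim _ _
      rw [Is, Is]
      exact addm (fun _ => 1) _ _ h'
    | g ξ =>
      obtain rfl : i = 0 := Subsingleton.elim _ _
      rw [Ig, Ig]
      exact addm (fun ζ => if ξ ≤ ζ then 2 * e ζ ξ else 0) _ _ h'
    | c ξ n => rw [Ic, Ic]; exact c1 ξ n ts ts' i h h'
    | d ξ η => rw [Id, Id]; exact d1 ξ η 0 ts ts' i h h'
  · have hs : ∀ (ρ : ℕ → Y) n, ev (L := L1) I ρ (sn n) = add (ρ 0) (fun _ => n) := by
      intro ρ n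
      induction n with
      | zero => rfl
      | succ n ih =>
        rw [sn, ev_t1, ih, Is]
        rfl
    rintro p (⟨ξ, n, rfl⟩ | ⟨ξ, η, hne, rfl⟩) ρ
    · simp only [ev_t3, ev_t1, ev_tb, ev_x1, hs, Ib, Is, Ig, Ic, Id]
      generalize ρ 0 = y
      obtain ⟨ζ, k⟩ := y
      change ρc ξ (n + 1) ![toLex (ζ, k), toLex (ζ, k + if ξ ≤ ζ then 2 * e ζ ξ else 0),
        toLex (ζ, k)] < ρc ξ n ![toLex (ξ, 0), toLex (ζ, k + n), toLex (ζ, k)]
      by_cases h : ξ ≤ ζ
      · rw [if_pos h]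
        have m1 : M ![toLex (ζ, k), toLex (ζ, k + 2 * e ζ ξ), toLex (ζ, k)] = ζ := by simp [M]
        have m2 : M ![toLex (ξ, 0), toLex (ζ, k + n), toLex (ζ, k)] = ζ := by simp [M, h]
        by_cases hn : n ≤ 2 * e ζ ξ
        · exact c3 ξ _ _ _ _ (m1.trans m2.symm) (by rw [m2]; omega)
        · refine c4 ξ _ _ _ _ (m1.trans m2.symm) (by rw [m2]; omega) ?_
          exact Prod.Lex.toLex_lt_toLex.2 (Or.inr ⟨rfl, by simp; omega⟩)
      · rw [if_neg h]
        refine c2 ξ _ _ _ _ ?_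
        simp [M, not_le.1 h]
    · simp only [ev_t3, ev_t1, ev_tb, ev_x1, Ib, Is, Ig, Ic, Id]
      generalize ρ 0 = y
      obtain ⟨ζ, k⟩ := y
      change ρd ξ η 0 ![toLex (ζ, k), toLex (ζ, k + if η ≤ ζ then 2 * e ζ η else 0),
          toLex (ζ, (k + if ξ ≤ ζ then 2 * e ζ ξ else 0) + 1)] <
        ρd ξ η 0 ![toLex (max ξ η, 0), toLex (ζ, k + if ξ ≤ ζ then 2 * e ζ ξ else 0),
          toLex (ζ, k + if η ≤ ζ then 2 * e ζ η else 0)]
      by_cases h : max ξ η ≤ ζ
      · have h1 : ξ ≤ ζ := (le_max_left _ _).trans h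
        have h2 : η ≤ ζ := (le_max_right _ _).trans h
        rw [if_pos h1, if_pos h2]
        have m1 : M ![toLex (ζ, k), toLex (ζ, k + 2 * e ζ η), toLex (ζ, k + 2 * e ζ ξ + 1)] = ζ := by
          simp [M]
        have m2 : M ![toLex (max ξ η, 0), toLex (ζ, k + 2 * e ζ ξ), toLex (ζ, k + 2 * e ζ η)] = ζ := by
          simp [M, h1, h2]
        have ne : e ζ ξ ≠ e ζ η := fun h => hne (he ζ h1 h2 h)
        refine d4 ξ η _ _ _ _ (m1.trans m2.symm) rfl ?_
        rw [m2]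
        split_ifs with h3
        · exact Prod.Lex.toLex_lt_toLex.2 (Or.inr ⟨rfl, by simp; omega⟩)
        · exact Prod.Lex.toLex_lt_toLex.2 (Or.inr ⟨rfl, by simp; omega⟩)
      · refine d2 ξ η _ _ _ _ ?_
        have := not_le.1 h
        simp only [M, Matrix.cons_val_zero, Matrix.cons_val_one, Matrix.cons_val, ofLex_toLex,
          max_self]
        exact this.trans_le ((le_max_left _ _).trans (le_max_left _ _))

theorem mono_le {L : FirstOrder.Language.{0, 0}} {T : Type u} [LinearOrder T]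
    {I : ∀ n, L.Functions n → (Fin n → T) → T} (hI : Mono I) {n : ℕ} (f : L.Functions n)
    (ts ts' : Fin n → T) (h : ∀ i, ts i ≤ ts' i) : I n f ts ≤ I n f ts' := by
  classical
  have : ∀ S : Finset (Fin n), I n f ts ≤ I n f (fun i => if i ∈ S then ts' i else ts i) := by
    intro S
    induction S using Finset.induction_on with
    | empty => simp
    | insert a S ha ih =>
      refine ih.trans ?_
      rcases (h a).lt_or_eq with h1 | h1
      · refine (hI n f _ _ a (fun j hj => by simp [hj]) ?_).le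
        simpa [ha] using h1
      · apply le_of_eq
        congr 1
        funext j
        by_cases e : j = a
        · subst e; simp [ha, h1]
        · simp [e]
  simpa using this Finset.univ

theorem clash {T : Type u} [LinearOrder T] [WellFoundedLT T]
    (I : ∀ n, L1.Functions n → (Fin n → T) → T) (J : ∀ n, L2.Functions n → (Fin n → T) → T)
    (hI : Mono I) (hJ : Mono J) (rI : ∀ p ∈ R1, ∀ ρ : ℕ → T, ev I ρ p.2 < ev I ρ p.1)
    (rJ : ∀ p ∈ R2, ∀ ρ : ℕ → T, ev J ρ p.2 < ev J ρ p.1) : False := by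
  classical
  have s1 : ∀ y : T, ∃ i, y < J 0 (F2.a i) ![] := by
    intro y
    by_contra hc
    push Not at hc
    refine not_strictAnti_of_wellFoundedLT (fun i => J 2 (F2.h i) ![y, y])
      (strictAnti_nat_of_succ_lt fun i => ?_)
    have := rJ _ ⟨i, rfl⟩ (fun _ => y)
    simp only [ev_t2, ev_ta, ev_x2] at this
    refine this.trans_le (mono_le hJ _ _ _ fun k => ?_)
    fin_cases k
    · exact hc i
    · exact le_rfl
  have s2 : ∀ (ξ : X) (y : T), I 0 (F1.b ξ) ![] ≤ y →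
      ∃ n, I 1 (F1.g ξ) ![y] < ev I (fun _ => y) (sn n) := by
    intro ξ y hy
    by_contra hc
    push Not at hc
    refine not_strictAnti_of_wellFoundedLT (fun n => I 3 (F1.c ξ n) ![y, I 1 (F1.g ξ) ![y], y])
      (strictAnti_nat_of_succ_lt fun n => ?_)
    have := rI _ (Or.inl ⟨ξ, n, rfl⟩) (fun _ => y)
    simp only [ev_t3, ev_t1, ev_tb, ev_x1] at this
    refine this.trans_le (mono_le hI _ _ _ fun k => ?_)
    fin_cases k
    · exact hy
    · exact hc n
    · exact le_rfl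
  have s3 : ∀ (ξ η : X) (y : T), ξ ≠ η → I 0 (F1.b (max ξ η)) ![] ≤ y →
      I 1 (F1.g ξ) ![y] ≤ I 1 (F1.g η) ![y] →
      I 1 F1.s ![I 1 (F1.g ξ) ![y] ] < I 1 (F1.g η) ![y] := by
    intro ξ η y hne hy h
    by_contra hc
    push Not at hc
    have := rI _ (Or.inr ⟨ξ, η, hne, rfl⟩) (fun _ => y)
    simp only [ev_t3, ev_t1, ev_tb, ev_x1] at this
    refine absurd this (not_lt.2 (mono_le hI _ _ _ fun k => ?_))
    fin_cases k
    · exact hy
    · exact h
    · exact hc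
  choose i hi using fun ξ : X => s1 (I 0 (F1.b ξ) ![])
  let N : X → ℕ := fun ξ => Nat.find (s2 ξ _ (hi ξ).le)
  have : ¬ Function.Injective (fun ξ => (i ξ, N ξ)) := fun h => X_unc h.countable
  simp only [Function.Injective, not_forall] at this
  obtain ⟨ξ, η, h, hne⟩ := this
  obtain ⟨e1, e2⟩ := Prod.mk.inj h
  have p1 := Nat.find_spec (s2 ξ _ (hi ξ).le)
  have p2 := Nat.find_spec (s2 η _ (hi η).le)
  have q1 := fun m => Nat.find_min (s2 ξ _ (hi ξ).le) (m := m)
  have q2 := fun m => Nat.find_min (s2 η _ (hi η).le) (m := m)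
  have b1 := (hi ξ).le
  have b2 := (hi η).le
  change _ < ev I _ (sn (N ξ)) at p1
  change _ < ev I _ (sn (N η)) at p2
  change ∀ m, m < N ξ → _ at q1
  change ∀ m, m < N η → _ at q2
  rw [← e2] at p2 q2
  rw [← e1] at p2 q2 b2
  generalize J 0 (F2.a (i ξ)) ![] = y at p1 p2 q1 q2 b1 b2
  have bm : I 0 (F1.b (max ξ η)) ![] ≤ y := by
    rcases max_choice ξ η with h | h <;> rw [h]
    · exact b1
    · exact b2
  cases hN : N ξ with
  | zero =>
    rw [hN] at p1
    exact absurd p1 (not_lt.2 (infl hI (F1.g ξ) ![y] 0))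
  | succ m =>
    rw [hN] at p1 p2 q1 q2
    have r1 := not_lt.1 (q1 m (Nat.lt_succ_self m))
    have r2 := not_lt.1 (q2 m (Nat.lt_succ_self m))
    rw [sn, ev_t1] at p1 p2
    have sm : ∀ a b : T, a ≤ b → I 1 F1.s ![a] ≤ I 1 F1.s ![b] := fun a b h =>
      mono_le hI _ _ _ fun k => by fin_cases k; exact h
    rcases le_total (I 1 (F1.g ξ) ![y]) (I 1 (F1.g η) ![y]) with h | h
    · exact absurd ((s3 ξ η y hne bm h).trans p2) (not_lt.2 (sm _ _ r1))
    · exact absurd ((s3 η ξ y (Ne.symm hne) (by rwa [max_comm]) h).trans p1) (not_lt.2 (sm _ _ r2))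

theorem not_tot3 : ¬ TotTerm (union R1 R2) := by
  classical
  rintro ⟨lt, hw, hm, hr⟩
  let _ : LinearOrder (Gr (L1.sum L2)) := linearOrderOfSTO lt
  have _ : WellFoundedLT (Gr (L1.sum L2)) := ⟨hw.wf⟩
  have e₁ : ∀ (ρ : ℕ → Gr (L1.sum L2)) (t : L1.Term ℕ),
      ((LHom.sumInl : L1 →ᴸ L1.sum L2).onTerm t).subst ρ =
        ev (fun n f ts => Term.func (L := L1.sum L2) (Sum.inl f) ts) ρ t := by
    intro ρ t
    induction t with
    | var v => rfl
    | func f ts ih =>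
      simp only [LHom.onTerm, ev, Term.subst]
      congr 1
      funext i
      exact ih i
  have e₂ : ∀ (ρ : ℕ → Gr (L1.sum L2)) (t : L2.Term ℕ),
      ((LHom.sumInr : L2 →ᴸ L1.sum L2).onTerm t).subst ρ =
        ev (fun n f ts => Term.func (L := L1.sum L2) (Sum.inr f) ts) ρ t := by
    intro ρ t
    induction t with
    | var v => rfl
    | func f ts ih =>
      simp only [LHom.onTerm, ev, Term.subst]
      congr 1
      funext i
      exact ih i
  refine clash (T := Gr (L1.sum L2)) (fun n f ts => Term.func (L := L1.sum L2) (Sum.inl f) ts)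
    (fun n f ts => Term.func (L := L1.sum L2) (Sum.inr f) ts)
    (fun n f => hm n (Sum.inl f)) (fun n f => hm n (Sum.inr f)) ?_ ?_
  · intro p hp ρ
    rw [← e₁, ← e₁]
    exact hr _ (Or.inl ⟨p, hp, rfl⟩) ρ
  · intro p hp ρ
    rw [← e₂, ← e₂]
    exact hr _ (Or.inr ⟨p, hp, rfl⟩) ρ

end Pool.Agent.H.MP_8e1749_lc
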