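import Mathlib

namespace Pool.Agent.H.MP_8e1749_lc

open FirstOrder FirstOrder.Language

/-- ground terms, with one fresh constant exactly when the signature has no constant -/
abbrev Gr (L : FirstOrder.Language.{0, 0}) : Type := L.Term {_u : Unit // IsEmpty (L.Functions 0)}

/-- left sides are not variables, variables of right sides occur on the left -/
def IsTRS {L : FirstOrder.Language.{0, 0}} (R : Set (L.Term ℕ × L.Term ℕ)) : Prop :=
  ∀ p ∈ R, (∀ x : ℕ, p.1 ≠ Term.var x) ∧ p.2.varFinset ⊆ p.1.varFinset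

/-- total termination -/
def TotTerm {L : FirstOrder.Language.{0, 0}} (R : Set (L.Term ℕ × L.Term ℕ)) : Prop :=
  ∃ lt : Gr L → Gr L → Prop, IsWellOrder (Gr L) lt ∧
    (∀ (n : ℕ) (f : L.Functions n) (ts ts' : Fin n → Gr L) (i : Fin n),
      (∀ j, j ≠ i → ts j = ts' j) → lt (ts i) (ts' i) → lt (Term.func f ts) (Term.func f ts')) ∧
    ∀ p ∈ R, ∀ σ : ℕ → Gr L, lt (p.2.subst σ) (p.1.subst σ)

/-- disjoint union of two systems -/
def union {L₁ L₂ : FirstOrder.Language.{0, 0}} (R₁ : Set (L₁.Term ℕ × L₁.Term ℕ))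
    (R₂ : Set (L₂.Term ℕ × L₂.Term ℕ)) : Set ((L₁.sum L₂).Term ℕ × (L₁.sum L₂).Term ℕ) :=
  Prod.map (LHom.sumInl : L₁ →ᴸ L₁.sum L₂).onTerm (LHom.sumInl : L₁ →ᴸ L₁.sum L₂).onTerm '' R₁ ∪
  Prod.map (LHom.sumInr : L₂ →ᴸ L₁.sum L₂).onTerm (LHom.sumInr : L₂ →ᴸ L₁.sum L₂).onTerm '' R₂

end Pool.Agent.H.MP_8e1749_lc
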